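import Mathlib

set_option autoImplicit false

/-!
# Banach's isometric conjecture: statements of the modules (squad BAN, helper10)

Part G (geometry): Lipschitz sections of the bundle of isometries.
Part M (maps): explicit piecewise maps on the real inner product space.
Part A (analysis): degree one without degree theory, polynomiality.
Part F (final).
-/

namespace Pool.Agent.BAN

open MeasureTheory Filter Topology Set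
open scoped NNReal

/-! ## Definitions -/

section Defs

variable {𝕜 : Type} [RCLike 𝕜] {V X : Type} [NormedAddCommGroup V] [InnerProductSpace 𝕜 V]
  [NormedAddCommGroup X] [InnerProductSpace 𝕜 X]

/-- A closed group of linear isometries of `V`. -/
structure CGrp (K : Set (V →L[𝕜] V)) : Prop where
  one : (1 : V →L[𝕜] V) ∈ K
  mul : ∀ g ∈ K, ∀ h ∈ K, g * h ∈ K
  inv : ∀ g ∈ K, ∃ h ∈ K, h * g = 1 ∧ g * h = 1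
  closed : IsClosed K
  iso : ∀ g ∈ K, ∀ v, ‖g v‖ = ‖v‖

/-- The linear symmetries of `φ`. -/
def SymG (φ : Seminorm 𝕜 V) : Set (V →L[𝕜] V) := {g | ∀ v, φ (g v) = φ v}

/-- The isometric embeddings of `(V, φ)` into `(X, Φ)` with image orthogonal to `ν`. -/
def PP (φ : Seminorm 𝕜 V) (Φ : Seminorm 𝕜 X) (ν : X) : Set (V →L[𝕜] X) :=
  {A | (∀ v, Φ (A v) = φ v) ∧ ∀ v, inner 𝕜 ν (A v) = 0}

/-- The standing assumptions of the geometric part. -/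
structure Dat (φ : Seminorm 𝕜 V) (Φ : Seminorm 𝕜 X) : Prop where
  dim : Module.finrank 𝕜 X = Module.finrank 𝕜 V + 1
  pos : ∀ v : V, v ≠ 0 → 0 < φ v
  Pos : ∀ x : X, x ≠ 0 → 0 < Φ x
  iso : ∀ g : V →L[𝕜] V, (∀ v, φ (g v) = φ v) → ∀ v, ‖g v‖ = ‖v‖
  non : ∀ ν : X, ‖ν‖ = 1 → ∃ A : V →L[𝕜] X, A ∈ PP φ Φ ν

/-- Real Hilbert-Schmidt inner product of two endomorphisms. -/
noncomputable def hs [FiniteDimensional 𝕜 V] (A B : V →L[𝕜] V) : ℝ :=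
  ∑ i, RCLike.re (inner 𝕜 (A (stdOrthonormalBasis 𝕜 V i)) (B (stdOrthonormalBasis 𝕜 V i)))

/-- `C` is within `r` of `K`. -/
def Near (K : Set (V →L[𝕜] V)) (r : ℝ) (C : V →L[𝕜] V) : Prop := ∃ κ ∈ K, ‖C - κ‖ ≤ r

end Defs

/-! ## Part G -/

/-- PW: powers of `1 + a`. -/
def PWStmt : Prop :=
  ∀ (R : Type) [NormedRing R] (a : R) (m : ℕ),
    ‖(1 + a) ^ m - 1 - (m : R) * a‖ ≤ (m * ‖a‖) ^ 2 * Real.exp (m * ‖a‖)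

/-- PL: if all limit points of the powers `(1 + ε_i Z_i)^⌊t/ε_i⌋` are in the closed set `K`,
then `1 + t Z` is `O(t^2)`-close to `K`. Uses PW. -/
def PLStmt : Prop :=
  ∀ (𝕜 : Type) [RCLike 𝕜] (V : Type) [NormedAddCommGroup V] [InnerProductSpace 𝕜 V]
    [FiniteDimensional 𝕜 V] (K : Set (V →L[𝕜] V)), IsClosed K →
    ∀ (ε : ℕ → ℝ) (Z : ℕ → V →L[𝕜] V) (Z0 : V →L[𝕜] V), (∀ i, 0 < ε i) →
    Tendsto ε atTop (𝓝 0) → Tendsto Z atTop (𝓝 Z0) →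
    (∀ t : ℝ, 0 ≤ t → t ≤ 1 → ∀ θ : ℕ → ℕ, StrictMono θ → ∀ H : V →L[𝕜] V,
      Tendsto (fun i => (1 + ((ε (θ i) : ℝ) : 𝕜) • Z (θ i)) ^ ⌊t / ε (θ i)⌋₊) atTop (𝓝 H) →
      H ∈ K) →
    ∃ C : ℝ, 0 ≤ C ∧ ∀ t : ℝ, 0 ≤ t → t ≤ 1 → ∃ κ ∈ K, ‖1 + ((t : ℝ) : 𝕜) • Z0 - κ‖ ≤ C * t ^ 2

/-- ROOT: square roots near the identity in the ambient algebra. -/
def ROOTStmt : Prop :=
  ∀ (𝕜 : Type) [RCLike 𝕜] (V : Type) [NormedAddCommGroup V] [InnerProductSpace 𝕜 V]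
    [FiniteDimensional 𝕜 V], ∃ r : ℝ, 0 < r ∧ ∀ g : V →L[𝕜] V, ‖g - 1‖ ≤ r →
      ∃ a : V →L[𝕜] V, a * a = g ∧ ‖a - 1‖ ≤ ‖g - 1‖

/-- SQRT: square roots near the identity in a closed group of isometries. Uses PL, ROOT. -/
def SQRTStmt : Prop :=
  ∀ (𝕜 : Type) [RCLike 𝕜] (V : Type) [NormedAddCommGroup V] [InnerProductSpace 𝕜 V]
    [FiniteDimensional 𝕜 V] (K : Set (V →L[𝕜] V)), CGrp K →
    ∃ r : ℝ, 0 < r ∧ ∀ κ ∈ K, ‖κ - 1‖ ≤ r → ∃ l ∈ K, l * l = κ ∧ ‖l - 1‖ ≤ ‖κ - 1‖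

/-- QG: quadratic growth. Uses SQRT. -/
def QGStmt : Prop :=
  ∀ (𝕜 : Type) [RCLike 𝕜] (V : Type) [NormedAddCommGroup V] [InnerProductSpace 𝕜 V]
    [FiniteDimensional 𝕜 V] (K : Set (V →L[𝕜] V)), CGrp K →
    ∃ r c : ℝ, 0 < r ∧ 0 < c ∧ ∀ C : V →L[𝕜] V, ‖C - 1‖ ≤ r → (∀ κ ∈ K, hs C κ ≤ hs C 1) →
      ∀ κ ∈ K, c * ‖1 - κ‖ ^ 2 ≤ hs C (1 - κ)

/-- NP: the nearest point map of a closed group of isometries. Uses QG. -/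
def NPStmt : Prop :=
  ∀ (𝕜 : Type) [RCLike 𝕜] (V : Type) [NormedAddCommGroup V] [InnerProductSpace 𝕜 V]
    [FiniteDimensional 𝕜 V] (K : Set (V →L[𝕜] V)), CGrp K →
    ∃ (r L : ℝ) (kh : (V →L[𝕜] V) → (V →L[𝕜] V)), 0 < r ∧ 0 ≤ L ∧
      (∀ C, Near K r C → kh C ∈ K) ∧
      (∀ C C', Near K r C → Near K r C' → ‖kh C - kh C'‖ ≤ L * ‖C - C'‖) ∧
      (∀ C, Near K r C → ∀ g ∈ K, kh (g * C) = g * kh C)

/-- EB: error bound for the symmetry group of a norm. Uses PL. -/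
def EBStmt : Prop :=
  ∀ (𝕜 : Type) [RCLike 𝕜] (V : Type) [NormedAddCommGroup V] [InnerProductSpace 𝕜 V]
    [FiniteDimensional 𝕜 V] (φ : Seminorm 𝕜 V), (∀ v, v ≠ 0 → 0 < φ v) →
    (∀ g : V →L[𝕜] V, (∀ v, φ (g v) = φ v) → ∀ v, ‖g v‖ = ‖v‖) →
    ∀ R : ℝ, ∃ C : ℝ, 0 ≤ C ∧ ∀ (g : V →L[𝕜] V) (δ : ℝ), ‖g‖ ≤ R → 0 ≤ δ →
      (∀ v, |φ (g v) - φ v| ≤ δ * ‖v‖) → ∃ κ ∈ SymG φ, ‖g - κ‖ ≤ C * δ

/-- BAS: basic facts. -/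
def BASStmt : Prop :=
  ∀ (𝕜 : Type) [RCLike 𝕜] (V X : Type) [NormedAddCommGroup V] [InnerProductSpace 𝕜 V]
    [FiniteDimensional 𝕜 V] [NormedAddCommGroup X] [InnerProductSpace 𝕜 X]
    [FiniteDimensional 𝕜 X] (φ : Seminorm 𝕜 V) (Φ : Seminorm 𝕜 X), Dat φ Φ →
    CGrp (SymG φ) ∧
    ∃ c C : ℝ, 0 < c ∧ 0 < C ∧ (∀ v, c * ‖v‖ ≤ φ v ∧ φ v ≤ C * ‖v‖) ∧
      (∀ x, c * ‖x‖ ≤ Φ x ∧ Φ x ≤ C * ‖x‖) ∧
      (∀ (ν : X) (A : V →L[𝕜] X), A ∈ PP φ Φ ν → (∀ v, c * ‖v‖ ≤ ‖A v‖) ∧ ‖A‖ ≤ C) ∧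
      (∀ (ν : X) (A : V →L[𝕜] X), ν ≠ 0 → A ∈ PP φ Φ ν →
        ∀ x, inner 𝕜 ν x = 0 → ∃ v, A v = x)

/-- PINV: Lipschitz pseudoinverse. -/
def PINVStmt : Prop :=
  ∀ (𝕜 : Type) [RCLike 𝕜] (V X : Type) [NormedAddCommGroup V] [InnerProductSpace 𝕜 V]
    [FiniteDimensional 𝕜 V] [NormedAddCommGroup X] [InnerProductSpace 𝕜 X]
    [FiniteDimensional 𝕜 X] (c C : ℝ), 0 < c →
    ∃ (L : ℝ) (R : (V →L[𝕜] X) → (X →L[𝕜] V)), 0 ≤ L ∧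
      (∀ A : V →L[𝕜] X, (∀ v, c * ‖v‖ ≤ ‖A v‖) → ‖A‖ ≤ C →
        (∀ v, R A (A v) = v) ∧ (∀ x, (∀ v, inner 𝕜 (A v) x = 0) → R A x = 0) ∧ ‖R A‖ ≤ L) ∧
      (∀ A B : V →L[𝕜] X, (∀ v, c * ‖v‖ ≤ ‖A v‖) → ‖A‖ ≤ C → (∀ v, c * ‖v‖ ≤ ‖B v‖) → ‖B‖ ≤ C →
        ‖R A - R B‖ ≤ L * ‖A - B‖)

/-- TR: Lipschitz transport. Uses NP, EB, BAS, PINV. -/
def TRStmt : Prop :=
  ∀ (𝕜 : Type) [RCLike 𝕜] (V X : Type) [NormedAddCommGroup V] [InnerProductSpace 𝕜 V]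
    [FiniteDimensional 𝕜 V] [NormedAddCommGroup X] [InnerProductSpace 𝕜 X]
    [FiniteDimensional 𝕜 X] (φ : Seminorm 𝕜 V) (Φ : Seminorm 𝕜 X), Dat φ Φ →
    ∃ (ρ L : ℝ) (T : X → (V →L[𝕜] X) → (V →L[𝕜] X)), 0 < ρ ∧ 0 ≤ L ∧
      (∀ ν ν' : X, ‖ν‖ = 1 → ‖ν'‖ = 1 → ‖ν - ν'‖ ≤ ρ → ∀ A ∈ PP φ Φ ν, T ν' A ∈ PP φ Φ ν') ∧
      (∀ ν₁ ν₁' ν₂ ν₂' : X, ‖ν₁‖ = 1 → ‖ν₁'‖ = 1 → ‖ν₂‖ = 1 → ‖ν₂'‖ = 1 →
        ‖ν₁ - ν₁'‖ ≤ ρ → ‖ν₂ - ν₂'‖ ≤ ρ → ∀ A₁ ∈ PP φ Φ ν₁, ∀ A₂ ∈ PP φ Φ ν₂,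
          ‖T ν₁' A₁ - T ν₂' A₂‖ ≤ L * (‖ν₁' - ν₂'‖ + ‖A₁ - A₂‖))

/-- NEAR: for `A ∈ P_ν`, `A' ∈ P_ν'` the endomorphism `A'⁺ A` is `C|ν-ν'|`-close to `K`.
Uses EB, BAS. -/
def NEARStmt : Prop :=
  ∀ (𝕜 : Type) [RCLike 𝕜] (V X : Type) [NormedAddCommGroup V] [InnerProductSpace 𝕜 V]
    [FiniteDimensional 𝕜 V] [NormedAddCommGroup X] [InnerProductSpace 𝕜 X]
    [FiniteDimensional 𝕜 X] (φ : Seminorm 𝕜 V) (Φ : Seminorm 𝕜 X), Dat φ Φ →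
    ∀ (L : ℝ) (R : (V →L[𝕜] X) → (X →L[𝕜] V)),
      (∀ (ν : X) (A : V →L[𝕜] X), ‖ν‖ = 1 → A ∈ PP φ Φ ν →
        (∀ v, R A (A v) = v) ∧ (∀ x, (∀ v, inner 𝕜 (A v) x = 0) → R A x = 0) ∧ ‖R A‖ ≤ L) →
      ∃ C : ℝ, 0 ≤ C ∧
        (∀ (ν ν' : X) (A A' : V →L[𝕜] X), ‖ν‖ = 1 → ‖ν'‖ = 1 → A ∈ PP φ Φ ν → A' ∈ PP φ Φ ν' →
          ∃ κ ∈ SymG φ, ‖(R A').comp A - κ‖ ≤ C * ‖ν - ν'‖ ∧
            ‖A - A'.comp κ‖ ≤ C * ‖ν - ν'‖ ∧ A'.comp κ ∈ PP φ Φ ν')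

/-- SEC: Lipschitz sections over bounded star-shaped sets. Uses TR, BAS. -/
def SECStmt : Prop :=
  ∀ (𝕜 : Type) [RCLike 𝕜] (V X : Type) [NormedAddCommGroup V] [InnerProductSpace 𝕜 V]
    [FiniteDimensional 𝕜 V] [NormedAddCommGroup X] [InnerProductSpace 𝕜 X]
    [FiniteDimensional 𝕜 X] (φ : Seminorm 𝕜 V) (Φ : Seminorm 𝕜 X), Dat φ Φ →
    ∀ (Y : Type) [NormedAddCommGroup Y] [NormedSpace ℝ Y] (D : Set Y) (R l : ℝ) (ν : Y → X),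
      (∀ y ∈ D, ∀ t : ℝ, 0 ≤ t → t ≤ 1 → t • y ∈ D) → (∀ y ∈ D, ‖y‖ ≤ R) →
      (∀ y ∈ D, ‖ν y‖ = 1) → (∀ y ∈ D, ∀ z ∈ D, ‖ν y - ν z‖ ≤ l * ‖y - z‖) →
      ∃ (s : Y → (V →L[𝕜] X)) (L : ℝ), 0 ≤ L ∧ (∀ y ∈ D, s y ∈ PP φ Φ (ν y)) ∧
        (∀ y ∈ D, ∀ z ∈ D, ‖s y - s z‖ ≤ L * ‖y - z‖)

/-- ORB: the real cone over an orbit of a closed group of isometries is everything or null. -/
def ORBStmt : Prop :=
  ∀ (𝕜 : Type) [RCLike 𝕜] (V : Type) [NormedAddCommGroup V] [InnerProductSpace 𝕜 V]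
    [FiniteDimensional 𝕜 V] [MeasurableSpace V] [BorelSpace V] (μ : Measure V)
    [μ.IsAddHaarMeasure] (K : Set (V →L[𝕜] V)) (v : V), CGrp K →
    (∃ u : V, ∀ t : ℝ, ∀ κ ∈ K, u ≠ ((t : ℝ) : 𝕜) • κ v) →
    μ {x | ∃ t : ℝ, ∃ κ ∈ K, x = ((t : ℝ) : 𝕜) • κ v} = 0

/-- CAP: the image of the cap is null. Uses ORB, BAS. -/
def CAPStmt : Prop :=
  ∀ (𝕜 : Type) [RCLike 𝕜] (V X : Type) [NormedAddCommGroup V] [InnerProductSpace 𝕜 V]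
    [FiniteDimensional 𝕜 V] [NormedAddCommGroup X] [InnerProductSpace 𝕜 X]
    [FiniteDimensional 𝕜 X] [MeasurableSpace X] [BorelSpace X] (μ : Measure X)
    [μ.IsAddHaarMeasure] (φ : Seminorm 𝕜 V) (Φ : Seminorm 𝕜 X), Dat φ Φ →
    ∀ (e : X) (v : V), ‖e‖ = 1 →
      ((∃ z : 𝕜, RCLike.im z ≠ 0) ∨
        (∃ u : V, ∀ t : ℝ, ∀ κ ∈ SymG φ, u ≠ ((t : ℝ) : 𝕜) • κ v)) →
      μ {x | ∃ r t : ℝ, ∃ A ∈ PP φ Φ (-e), x = ((r : ℝ) : 𝕜) • e + ((t : ℝ) : 𝕜) • A v} = 0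

/-- INVIP: an inner product invariant under all linear isometries of a norm. -/
def INVIPStmt : Prop :=
  ∀ (𝕜 : Type) [RCLike 𝕜] (V : Type) [NormedAddCommGroup V] [InnerProductSpace 𝕜 V]
    [FiniteDimensional 𝕜 V] (φ : Seminorm 𝕜 V), (∀ v, v ≠ 0 → 0 < φ v) →
    ∃ T : V ≃L[𝕜] V, ∀ g : V →L[𝕜] V, (∀ v, φ (T (g v)) = φ (T v)) → ∀ v, ‖g v‖ = ‖v‖

/-! ## Part M: explicit maps on a real inner product space -/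

section Maps

variable {E : Type} [NormedAddCommGroup E] [InnerProductSpace ℝ E]

/-- coordinate along `e` -/
noncomputable def x0 (e x : E) : ℝ := inner ℝ e x
/-- orthogonal component -/
noncomputable def xp (e x : E) : E := x - x0 e x • e
/-- the weight `w` -/
noncomputable def ww (e x : E) : ℝ := max (x0 e x + ‖xp e x‖) (‖xp e x‖ / 2)
/-- the parameter `Y` -/
noncomputable def YY (e x : E) : E := (ww e x)⁻¹ • xp e x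
/-- the (not normalised) normal as a function of the parameter -/
noncomputable def nn (e y : E) : E := (1 - ‖y‖) • e + (min 1 ((2 - ‖y‖) / ‖y‖)) • y
/-- the unit normal as a function of the parameter -/
noncomputable def nu (e y : E) : E := (‖nn e y‖)⁻¹ • nn e y
/-- the map `Q` -/
noncomputable def QQ (e x : E) : E :=
  x0 e x • e + (max 0 (‖xp e x‖ + 2 * min (x0 e x) 0) / ‖xp e x‖) • xp e x
/-- the complement of the cap -/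
def SS (e : E) : Set E := {x | -(‖xp e x‖ / 2) < x0 e x}
/-- the domain of the parameter -/
def DD (e : E) : Set E := {y | ‖y‖ ≤ 2 ∧ x0 e y = 0}

end Maps

/-- MAPA: the parameter map and the perspective construction. -/
def MAPAStmt : Prop :=
  ∀ (E : Type) [NormedAddCommGroup E] [InnerProductSpace ℝ E] (e : E), ‖e‖ = 1 →
    (∀ x, YY e x ∈ DD e) ∧ (∀ x, 0 ≤ ww e x) ∧ (∃ l : ℝ≥0, LipschitzWith l (ww e)) ∧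
    (∀ (Z : Type) [NormedAddCommGroup Z] [NormedSpace ℝ Z] (s : E → Z) (C L : ℝ),
      (∀ y ∈ DD e, ‖s y‖ ≤ C) → (∀ y ∈ DD e, ∀ z ∈ DD e, ‖s y - s z‖ ≤ L * ‖y - z‖) →
      ∃ l : ℝ≥0, LipschitzWith l (fun x => ww e x • s (YY e x)))

/-- MAPB: the normal field on the parameter domain. -/
def MAPBStmt : Prop :=
  ∀ (E : Type) [NormedAddCommGroup E] [InnerProductSpace ℝ E] (e : E), ‖e‖ = 1 →
    (∀ y ∈ DD e, ∀ t : ℝ, 0 ≤ t → t ≤ 1 → t • y ∈ DD e) ∧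
    (∀ y ∈ DD e, ‖nu e y‖ = 1) ∧
    (∃ l : ℝ, ∀ y ∈ DD e, ∀ z ∈ DD e, ‖nu e y - nu e z‖ ≤ l * ‖y - z‖)

/-- MAPC: the map `Q`. -/
def MAPCStmt : Prop :=
  ∀ (E : Type) [NormedAddCommGroup E] [InnerProductSpace ℝ E] (e : E), ‖e‖ = 1 →
    (∃ l : ℝ≥0, LipschitzWith l (QQ e)) ∧ QQ e 0 = 0 ∧
    (∀ x, (1 / 5) * ‖x‖ ^ 2 ≤ inner ℝ x (QQ e x)) ∧
    (∀ x, 0 < ww e x → ∃ m : ℝ, QQ e x = m • nu e (YY e x)) ∧
    (∀ x ∈ SS e, (1 / 3) * ‖x‖ ≤ ww e x) ∧ IsOpen (SS e) ∧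
    (∀ x, x ∉ SS e → QQ e x = x0 e x • e ∧ (ww e x = 0 ∨ nu e (YY e x) = -e))

/-! ## Part A: analysis -/

/-- DET1: perturbations of the identity have positive determinant. -/
def DET1Stmt : Prop :=
  ∀ (E : Type) [NormedAddCommGroup E] [InnerProductSpace ℝ E] [FiniteDimensional ℝ E]
    (A : E →L[ℝ] E), ‖A‖ < 1 → 0 < (1 + A).det

/-- CVS: change of variables for small Lipschitz perturbations of the identity. Uses DET1. -/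
def CVSStmt : Prop :=
  ∀ (E : Type) [NormedAddCommGroup E] [InnerProductSpace ℝ E] [FiniteDimensional ℝ E]
    [MeasurableSpace E] [BorelSpace E] (μ : Measure E) [μ.IsAddHaarMeasure]
    (M : E → E) (K : ℝ≥0), K < 1 → LipschitzWith K M → ∀ g : E → ℂ, Continuous g →
    ∫ x, g (x + M x) * (((1 + fderiv ℝ M x).det : ℝ) : ℂ) ∂μ = ∫ x, g x ∂μ

/-- HOLP: holomorphic parameter integrals. -/
def HOLPStmt : Prop :=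
  ∀ (α : Type) [MeasurableSpace α] (μ : Measure α) (U : Set ℂ) (F : ℂ → α → ℂ) (h : α → ℝ),
    IsOpen U → (∀ z ∈ U, AEStronglyMeasurable (F z) μ) → Integrable h μ →
    (∀ᵐ x ∂μ, ∀ z ∈ U, ‖F z x‖ ≤ h x) →
    (∀ᵐ x ∂μ, DifferentiableOn ℂ (fun z => F z x) U) →
    DifferentiableOn ℂ (fun z => ∫ x, F z x ∂μ) U

/-- DEGC: degree one for Gaussian exponentials. Uses CVS, HOLP. -/
def DEGCStmt : Prop :=
  ∀ (E : Type) [NormedAddCommGroup E] [InnerProductSpace ℝ E] [FiniteDimensional ℝ E]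
    [MeasurableSpace E] [BorelSpace E] (μ : Measure E) [μ.IsAddHaarMeasure]
    (F : E → E) (L : ℝ≥0) (c : ℝ), LipschitzWith L F → F 0 = 0 → 0 < c →
    (∀ t : ℝ, 0 ≤ t → t ≤ 1 → ∀ x, c * ‖x‖ ≤ ‖(1 - t) • x + t • F x‖) → ∀ ξ : E,
    ∫ x, Complex.exp (-((‖F x‖ ^ 2 : ℝ) : ℂ) + Complex.I * ((inner ℝ ξ (F x) : ℝ) : ℂ)) *
        (((fderiv ℝ F x).det : ℝ) : ℂ) ∂μ =
      ∫ x, Complex.exp (-((‖x‖ ^ 2 : ℝ) : ℂ) + Complex.I * ((inner ℝ ξ x : ℝ) : ℂ)) ∂μ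

/-- DEG: degree one. Uses DEGC. -/
def DEGStmt : Prop :=
  ∀ (E : Type) [NormedAddCommGroup E] [InnerProductSpace ℝ E] [FiniteDimensional ℝ E]
    [MeasurableSpace E] [BorelSpace E] (μ : Measure E) [μ.IsAddHaarMeasure]
    (F : E → E) (L : ℝ≥0) (c : ℝ), LipschitzWith L F → F 0 = 0 → 0 < c →
    (∀ t : ℝ, 0 ≤ t → t ≤ 1 → ∀ x, c * ‖x‖ ≤ ‖(1 - t) • x + t • F x‖) →
    ∀ g : E → ℝ, Continuous g → HasCompactSupport g →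
    ∫ x, g (F x) * (fderiv ℝ F x).det ∂μ = ∫ x, g x ∂μ

/-- ND: a Lipschitz map with null image has zero Jacobian almost everywhere. -/
def NDStmt : Prop :=
  ∀ (E : Type) [NormedAddCommGroup E] [InnerProductSpace ℝ E] [FiniteDimensional ℝ E]
    [MeasurableSpace E] [BorelSpace E] (μ : Measure E) [μ.IsAddHaarMeasure]
    (F : E → E) (L : ℝ≥0) (S : Set E), LipschitzWith L F → MeasurableSet S → μ (F '' S) = 0 →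
    ∀ᵐ x ∂(μ.restrict S), (fderiv ℝ F x).det = 0

/-- LIM: the limit `ε → 0`. Uses DEG, ND. -/
def LIMStmt : Prop :=
  ∀ (E : Type) [NormedAddCommGroup E] [InnerProductSpace ℝ E] [FiniteDimensional ℝ E]
    [MeasurableSpace E] [BorelSpace E] (μ : Measure E) [μ.IsAddHaarMeasure]
    (Q G : E → E) (L : ℝ≥0) (c : ℝ) (S : Set E), 0 < c → LipschitzWith L Q →
    LipschitzWith L G → Q 0 = 0 → G 0 = 0 → (∀ x, inner ℝ (Q x) (G x) = 0) →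
    (∀ x, c * ‖x‖ ^ 2 ≤ inner ℝ x (Q x)) → MeasurableSet S → (∀ x ∈ S, c * ‖x‖ ≤ ‖G x‖) →
    (∀ ε : ℝ, 0 < ε → μ ((fun x => ε • Q x + G x) '' Sᶜ) = 0) →
    ∀ g : E → ℝ, Continuous g → HasCompactSupport g →
    ∫ x in S, g (G x) * (fderiv ℝ G x).det ∂μ = ∫ x, g x ∂μ

/-- SCAL: the volume formula. Uses LIM. -/
def SCALStmt : Prop :=
  ∀ (E : Type) [NormedAddCommGroup E] [InnerProductSpace ℝ E] [FiniteDimensional ℝ E]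
    [MeasurableSpace E] [BorelSpace E] (μ : Measure E) [μ.IsAddHaarMeasure]
    (Φ : E → ℝ) (Q G : E → E) (w : E → ℝ) (L : ℝ≥0) (c d : ℝ) (S : Set E), 0 < c → 0 < d →
    Continuous Φ → (∀ x, x ≠ 0 → 0 < Φ x) → (∀ (t : ℝ) (x : E), Φ (t • x) = |t| * Φ x) →
    LipschitzWith L Q → LipschitzWith L G → Q 0 = 0 → G 0 = 0 →
    (∀ x, inner ℝ (Q x) (G x) = 0) → (∀ x, c * ‖x‖ ^ 2 ≤ inner ℝ x (Q x)) →
    MeasurableSet S → (∀ x ∈ S, c * ‖x‖ ≤ w x) → (∀ x, Φ (G x) = w x * d) →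
    (∀ ε : ℝ, 0 < ε → μ ((fun x => ε • Q x + G x) '' Sᶜ) = 0) →
    ∀ i : ℕ, ∫ x in S, ‖G x‖ ^ (2 * i) * max 0 (1 - w x) * (fderiv ℝ G x).det ∂μ =
      d ^ (Module.finrank ℝ E + 2 * i) * ∫ x, ‖x‖ ^ (2 * i) * max 0 (1 - Φ x) ∂μ

/-- POS: positivity of the constants. -/
def POSStmt : Prop :=
  ∀ (E : Type) [NormedAddCommGroup E] [InnerProductSpace ℝ E] [FiniteDimensional ℝ E]
    [Nontrivial E] [MeasurableSpace E] [BorelSpace E] (μ : Measure E) [μ.IsAddHaarMeasure]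
    (Φ : E → ℝ), Continuous Φ → (∀ x, x ≠ 0 → 0 < Φ x) →
    (∀ (t : ℝ) (x : E), Φ (t • x) = |t| * Φ x) →
    ∀ i : ℕ, 0 < ∫ x, ‖x‖ ^ (2 * i) * max 0 (1 - Φ x) ∂μ

/-- POLY: the volume integrals are polynomials along lines. -/
def POLYStmt : Prop :=
  ∀ (E : Type) [NormedAddCommGroup E] [InnerProductSpace ℝ E] [FiniteDimensional ℝ E]
    [MeasurableSpace E] [BorelSpace E] (μ : Measure E) [μ.IsAddHaarMeasure]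
    (A B : E → E) (w : E → ℝ) (L : ℝ≥0) (c : ℝ) (S : Set E), 0 < c → LipschitzWith L A →
    LipschitzWith L B → Continuous w → MeasurableSet S → (∀ x ∈ S, c * ‖x‖ ≤ w x) →
    ∀ i : ℕ, ∃ P : Polynomial ℝ, ∀ t : ℝ,
      ∫ x in S, ‖A x + t • B x‖ ^ (2 * i) * max 0 (1 - w x) *
        (fderiv ℝ (fun y => A y + t • B y) x).det ∂μ = P.eval t

/-- ALG: `f^N` and `f^(N+2)` polynomial and linear growth imply `f^2` quadratic. -/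
def ALGStmt : Prop :=
  ∀ (f : ℝ → ℝ) (P R : Polynomial ℝ) (N : ℕ) (a b : ℝ), (∀ t, 0 < f t) →
    (∀ t, f t ≤ a + b * |t|) → (∀ t, f t ^ N = P.eval t) → (∀ t, f t ^ (N + 2) = R.eval t) →
    ∃ α β γ : ℝ, ∀ t, f t ^ 2 = α + β * t + γ * t ^ 2

/-- ANA: the analytic theorem. Uses SCAL, POS, POLY, ALG. -/
def ANAStmt : Prop :=
  ∀ (E : Type) [NormedAddCommGroup E] [InnerProductSpace ℝ E] [FiniteDimensional ℝ E]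
    [Nontrivial E] [MeasurableSpace E] [BorelSpace E] (μ : Measure E) [μ.IsAddHaarMeasure]
    (Φ : E → ℝ) (f : ℝ → ℝ → ℝ) (A B Q : E → E) (w : E → ℝ) (L : ℝ≥0) (c : ℝ) (S : Set E),
    0 < c → Continuous Φ → (∀ x, x ≠ 0 → 0 < Φ x) →
    (∀ (t : ℝ) (x : E), Φ (t • x) = |t| * Φ x) →
    (∀ p q : ℝ, (p ≠ 0 ∨ q ≠ 0) → 0 < f p q) → (∀ t p q : ℝ, f (t * p) (t * q) = |t| * f p q) →
    (∀ p q p' q' : ℝ, f (p + p') (q + q') ≤ f p q + f p' q') →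
    LipschitzWith L A → LipschitzWith L B → LipschitzWith L Q → A 0 = 0 → B 0 = 0 → Q 0 = 0 →
    (∀ x, inner ℝ (Q x) (A x) = 0) → (∀ x, inner ℝ (Q x) (B x) = 0) →
    (∀ x, c * ‖x‖ ^ 2 ≤ inner ℝ x (Q x)) → Continuous w → MeasurableSet S →
    (∀ x ∈ S, c * ‖x‖ ≤ w x) → (∀ (x : E) (p q : ℝ), Φ (p • A x + q • B x) = w x * f p q) →
    (∀ ε p q : ℝ, 0 < ε → (p ≠ 0 ∨ q ≠ 0) →
      μ ((fun x => ε • Q x + (p • A x + q • B x)) '' Sᶜ) = 0) →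
    f 1 1 ^ 2 + f 1 (-1) ^ 2 = 2 * (f 1 0 ^ 2 + f 0 1 ^ 2)

/-! ## Part F: final -/

/-- MAINI: parallelogram law for the model norm, `K` already orthogonal.
Uses ANA, SEC, MAPA, MAPB, MAPC, CAP, BAS. -/
def MAINIStmt : Prop :=
  ∀ (𝕜 : Type) [RCLike 𝕜] (V X : Type) [NormedAddCommGroup V] [InnerProductSpace 𝕜 V]
    [FiniteDimensional 𝕜 V] [NormedAddCommGroup X] [InnerProductSpace 𝕜 X]
    [FiniteDimensional 𝕜 X] (φ : Seminorm 𝕜 V) (Φ : Seminorm 𝕜 X), Dat φ Φ →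
    ∀ a b : V, φ (a + b) ^ 2 + φ (a - b) ^ 2 = 2 * (φ a ^ 2 + φ b ^ 2)

/-- MAINX: parallelogram law for `Φ`. Uses MAINI, INVIP. -/
def MAINXStmt : Prop :=
  ∀ (𝕜 : Type) [RCLike 𝕜] (k : ℕ), 2 ≤ k →
    ∀ Φ : Seminorm 𝕜 (EuclideanSpace 𝕜 (Fin (k + 1))), (∀ x, x ≠ 0 → 0 < Φ x) →
    (∀ H₁ H₂ : Submodule 𝕜 (EuclideanSpace 𝕜 (Fin (k + 1))),
      Module.finrank 𝕜 H₁ = k → Module.finrank 𝕜 H₂ = k →
      ∃ g : H₁ ≃ₗ[𝕜] H₂, ∀ x : H₁, Φ (g x : EuclideanSpace 𝕜 (Fin (k + 1))) = Φ x) →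
    ∀ x y, Φ (x + y) ^ 2 + Φ (x - y) ^ 2 = 2 * (Φ x ^ 2 + Φ y ^ 2)

/-- FINN: normed space version. Uses MAINX. -/
def FINNStmt : Prop :=
  ∀ (𝕜 : Type) [RCLike 𝕜] (E : Type) [NormedAddCommGroup E] [NormedSpace 𝕜 E] (k : ℕ),
    2 ≤ k → Module.finrank 𝕜 E = k + 1 →
    (∀ H₁ H₂ : Submodule 𝕜 E, Module.finrank 𝕜 H₁ = k → Module.finrank 𝕜 H₂ = k →
      Nonempty (H₁ ≃ₗᵢ[𝕜] H₂)) →
    ∀ x y : E, ‖x + y‖ * ‖x + y‖ + ‖x - y‖ * ‖x - y‖ = 2 * (‖x‖ * ‖x‖ + ‖y‖ * ‖y‖)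

end Pool.Agent.BAN
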